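import Mathlib
import Pool.Agent.helper29.NS.Spec2

/-! Project ns, modules SL and SM: slices, symmetry of second derivatives. -/

set_option autoImplicit false

namespace NS

open MeasureTheory Filter Topology Set

theorem SL : SL_stmt := by
  intro f t q hf
  have h0 := hf.hasFDerivAt
  have h1 : HasFDerivAt (fun q : ℝ × ℝ => f (t, q))
      ((fderiv ℝ f (t, q)).comp (ContinuousLinearMap.inr ℝ ℝ (ℝ × ℝ))) q :=
    h0.comp q (hasFDerivAt_prodMk_right t q)
  have h2 : HasFDerivAt (fun t : ℝ => f (t, q))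
      ((fderiv ℝ f (t, q)).comp (ContinuousLinearMap.inl ℝ ℝ (ℝ × ℝ))) t :=
    h0.comp t (hasFDerivAt_prodMk_left t q)
  refine ⟨?_, ?_, ?_⟩
  · unfold px dx
    rw [h1.fderiv]
    simp
  · unfold py dy
    rw [h1.fderiv]
    simp
  · unfold dt
    rw [h2.hasDerivAt.deriv]
    rfl

lemma SM_two {f : ℝ × ℝ × ℝ → ℝ} (hf : ContDiff ℝ 2 f) (z u v : ℝ × ℝ × ℝ) :
    fderiv ℝ (fun z => fderiv ℝ f z v) z u = fderiv ℝ (fun z => fderiv ℝ f z u) z v := by
  have hd : DifferentiableAt ℝ (fderiv ℝ f) z :=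
    ((hf.fderiv_right (m := 1) (by norm_num)).differentiable (by norm_num)) z
  have e : ∀ u v : ℝ × ℝ × ℝ, fderiv ℝ (fun z => fderiv ℝ f z v) z u =
      fderiv ℝ (fderiv ℝ f) z u v := by
    intro u v
    have h1 : HasFDerivAt (fun z => fderiv ℝ f z v)
        ((ContinuousLinearMap.apply ℝ ℝ v).comp (fderiv ℝ (fderiv ℝ f) z)) z :=
      (ContinuousLinearMap.apply ℝ ℝ v).hasFDerivAt.comp z hd.hasFDerivAt
    rw [h1.fderiv]
    rfl
  rw [e, e]
  have hs : IsSymmSndFDerivAt ℝ f z :=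
    (hf.contDiffAt (x := z)).isSymmSndFDerivAt (by simp)
  exact hs.eq u v

theorem SM : SM_stmt := by
  intro k f hf
  have h1 : ContDiff ℝ k (fderiv ℝ f) := hf.fderiv_right (m := k) (by push_cast; exact le_rfl)
  refine ⟨h1.clm_apply contDiff_const, h1.clm_apply contDiff_const, h1.clm_apply contDiff_const, ?_⟩
  intro hk
  have h2 : ContDiff ℝ 2 f := by
    refine hf.of_le ?_
    have : (2 : ℕ) ≤ k + 1 := by omega
    exact_mod_cast this
  refine ⟨funext fun z => SM_two h2 z _ _, funext fun z => SM_two h2 z _ _,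
    funext fun z => SM_two h2 z _ _⟩

end NS
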