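import Mathlib
import Pool.Agent.helper29.NS.Spec2

/-! Project ns, module A0: compactness of bounded Lipschitz functions on the space-time. -/

set_option autoImplicit false

namespace NS

open MeasureTheory Filter Topology Set

lemma A0_loc {B : ℝ} (hB : 0 ≤ B) {s : ℕ → (ℝ × ℝ × ℝ → ℝ)} {f : ℝ × ℝ × ℝ → ℝ}
    (hs : ∀ n z w, |s n z - s n w| ≤ 3 * B * dist z w)
    (hf : ∀ z w, |f z - f w| ≤ 3 * B * dist z w)
    (h : ∀ z, Tendsto (fun n => s n z) atTop (𝓝 (f z))) :
    TendstoLocallyUniformly s f atTop := by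
  rw [Metric.tendstoLocallyUniformly_iff]
  intro ε hε x
  have hδ : 0 < ε / (3 * (3 * B + 1)) := by positivity
  refine ⟨Metric.ball x (ε / (3 * (3 * B + 1))), Metric.ball_mem_nhds x hδ, ?_⟩
  have h1 := (Metric.tendsto_nhds.1 (h x)) (ε / 3) (by positivity)
  filter_upwards [h1] with n hn y hy
  rw [Metric.mem_ball] at hy
  have k1 : 3 * B * dist y x ≤ ε / 3 := by
    have h2 : 3 * B * dist y x ≤ (3 * B + 1) * (ε / (3 * (3 * B + 1))) := by
      apply mul_le_mul (by linarith) hy.le dist_nonneg (by positivity)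
    refine h2.trans (le_of_eq ?_)
    field_simp
  have h3 := (hs n y x).trans k1
  have h4 := (hf y x).trans k1
  rw [Real.dist_eq] at hn ⊢
  rw [abs_le] at h3 h4
  rw [abs_lt] at hn ⊢
  constructor <;> linarith [h3.1, h3.2, h4.1, h4.2, hn.1, hn.2]

theorem A0 : A0_stmt := by
  intro B s hs
  have hB : 0 ≤ B := (abs_nonneg _).trans ((hs 0).1 0)
  set d : ℕ → ℝ × ℝ × ℝ := TopologicalSpace.denseSeq (ℝ × ℝ × ℝ) with hd
  have hdense : DenseRange d := TopologicalSpace.denseRange_denseSeq _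
  let X : ℕ → (ℕ → Set.Icc (-B) B) := fun n k => ⟨s n (d k), abs_le.1 ((hs n).1 (d k))⟩
  obtain ⟨A, φ, hφ, hA⟩ := CompactSpace.tendsto_subseq X
  have hA' : ∀ k, Tendsto (fun n => s (φ n) (d k)) atTop (𝓝 ((A k : ℝ))) := by
    intro k
    have h1 := (tendsto_pi_nhds.1 hA) k
    exact (continuous_subtype_val.tendsto (A k)).comp h1
  have hcau : ∀ z, CauchySeq (fun n => s (φ n) z) := by
    intro z
    rw [Metric.cauchySeq_iff']
    intro ε hε
    have hδ : 0 < ε / (4 * (3 * B + 1)) := by positivity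
    obtain ⟨k, hk⟩ := hdense.exists_dist_lt z hδ
    have h1 := (hA' k).cauchySeq
    rw [Metric.cauchySeq_iff'] at h1
    obtain ⟨N, hN⟩ := h1 (ε / 2) (by positivity)
    refine ⟨N, fun n hn => ?_⟩
    have h2 := hN n hn
    have k1 : 3 * B * dist z (d k) ≤ ε / 4 := by
      have h2 : 3 * B * dist z (d k) ≤ (3 * B + 1) * (ε / (4 * (3 * B + 1))) := by
        apply mul_le_mul (by linarith) hk.le dist_nonneg (by positivity)
      refine h2.trans (le_of_eq ?_)
      field_simp
    have h3 := ((hs (φ n)).2 z (d k)).trans k1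
    have h4 := ((hs (φ N)).2 z (d k)).trans k1
    rw [Real.dist_eq] at h2 ⊢
    rw [abs_le] at h3 h4
    rw [abs_lt] at h2 ⊢
    constructor <;> linarith [h3.1, h3.2, h4.1, h4.2, h2.1, h2.2]
  choose f hf using fun z => cauchySeq_tendsto_of_complete (hcau z)
  refine ⟨f, φ, hφ, ?_, ?_, ?_⟩
  · intro z
    exact le_of_tendsto (hf z).abs (Eventually.of_forall fun n => (hs (φ n)).1 z)
  · intro z w
    exact le_of_tendsto ((hf z).sub (hf w)).abs (Eventually.of_forall fun n => (hs (φ n)).2 z w)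
  · apply A0_loc hB (fun n => (hs (φ n)).2) _ hf
    intro z w
    exact le_of_tendsto ((hf z).sub (hf w)).abs (Eventually.of_forall fun n => (hs (φ n)).2 z w)

end NS
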