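import Mathlib
import Pool.Agent.helper29.NS.Spec2

/-! Project ns, module A1: limits of derivatives. -/

set_option autoImplicit false

namespace NS

open MeasureTheory Filter Topology Set

/-- linear form with given coefficients -/
noncomputable def A1_L (a b c : ℝ) : ℝ × ℝ × ℝ →L[ℝ] ℝ :=
  a • ContinuousLinearMap.fst ℝ ℝ (ℝ × ℝ) +
    (b • (ContinuousLinearMap.fst ℝ ℝ ℝ).comp (ContinuousLinearMap.snd ℝ ℝ (ℝ × ℝ)) +
      c • (ContinuousLinearMap.snd ℝ ℝ ℝ).comp (ContinuousLinearMap.snd ℝ ℝ (ℝ × ℝ)))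

lemma A1_L_apply (a b c : ℝ) (u : ℝ × ℝ × ℝ) :
    A1_L a b c u = a * u.1 + (b * u.2.1 + c * u.2.2) := by
  simp [A1_L]

lemma A1_L_dist (a b c a' b' c' : ℝ) :
    dist (A1_L a b c) (A1_L a' b' c') ≤ dist a a' + dist b b' + dist c c' := by
  rw [dist_eq_norm]
  apply ContinuousLinearMap.opNorm_le_bound _ (by positivity)
  intro u
  rw [sub_apply, A1_L_apply, A1_L_apply, Real.norm_eq_abs]
  have e : a * u.1 + (b * u.2.1 + c * u.2.2) - (a' * u.1 + (b' * u.2.1 + c' * u.2.2)) =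
      (a - a') * u.1 + ((b - b') * u.2.1 + (c - c') * u.2.2) := by ring
  rw [e]
  have h1 : |u.1| ≤ ‖u‖ := norm_fst_le u
  have h2 : |u.2.1| ≤ ‖u‖ := (norm_fst_le u.2).trans (norm_snd_le u)
  have h3 : |u.2.2| ≤ ‖u‖ := (norm_snd_le u.2).trans (norm_snd_le u)
  refine (abs_add_le _ _).trans ?_
  refine (add_le_add_right (abs_add_le _ _) _).trans ?_
  rw [abs_mul, abs_mul, abs_mul, Real.dist_eq, Real.dist_eq, Real.dist_eq]
  have a1 := mul_le_mul_of_nonneg_left h1 (abs_nonneg (a - a'))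
  have a2 := mul_le_mul_of_nonneg_left h2 (abs_nonneg (b - b'))
  have a3 := mul_le_mul_of_nonneg_left h3 (abs_nonneg (c - c'))
  linarith

lemma A1_fderiv (f : ℝ × ℝ × ℝ → ℝ) (z : ℝ × ℝ × ℝ) :
    fderiv ℝ f z = A1_L (dt f z) (dx f z) (dy f z) := by
  apply ContinuousLinearMap.ext
  intro u
  rw [A1_L_apply]
  have e : u = u.1 • ((1, 0, 0) : ℝ × ℝ × ℝ) + (u.2.1 • ((0, 1, 0) : ℝ × ℝ × ℝ) +
      u.2.2 • ((0, 0, 1) : ℝ × ℝ × ℝ)) := by
    ext <;> simp
  conv_lhs => rw [e]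
  rw [map_add, map_add, map_smul, map_smul, map_smul]
  simp only [dt, dx, dy, smul_eq_mul]
  ring

theorem A1 : A1_stmt := by
  intro s f f0 f1 f2 hs h h0 h1 h2
  have key : ∀ z, HasFDerivAt f (A1_L (f0 z) (f1 z) (f2 z)) z := by
    intro z
    refine hasFDerivAt_of_tendstoLocallyUniformlyOn (s := univ) (l := atTop) (f := s)
      (f' := fun n z => A1_L (dt (s n) z) (dx (s n) z) (dy (s n) z))
      (g' := fun z => A1_L (f0 z) (f1 z) (f2 z)) isOpen_univ ?_ ?_ ?_ (mem_univ z)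
    · rw [tendstoLocallyUniformlyOn_univ, Metric.tendstoLocallyUniformly_iff]
      intro ε hε x
      rw [Metric.tendstoLocallyUniformly_iff] at h0 h1 h2
      obtain ⟨t0, ht0, e0⟩ := h0 (ε / 3) (by positivity) x
      obtain ⟨t1, ht1, e1⟩ := h1 (ε / 3) (by positivity) x
      obtain ⟨t2, ht2, e2⟩ := h2 (ε / 3) (by positivity) x
      refine ⟨t0 ∩ (t1 ∩ t2), inter_mem ht0 (inter_mem ht1 ht2), ?_⟩
      filter_upwards [e0, e1, e2] with n g0 g1 g2 y hy
      refine (A1_L_dist _ _ _ _ _ _).trans_lt ?_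
      have a0 := g0 y hy.1
      have a1 := g1 y hy.2.1
      have a2 := g2 y hy.2.2
      linarith
    · intro n x _
      rw [← A1_fderiv]
      exact (hs n x).hasFDerivAt
    · intro x _
      exact (h.tendstoLocallyUniformlyOn (s := univ)).tendsto_at (mem_univ x)
  refine ⟨fun z => (key z).differentiableAt, ?_, ?_, ?_⟩
  · funext z
    unfold dt
    rw [(key z).fderiv, A1_L_apply]
    simp
  · funext z
    unfold dx
    rw [(key z).fderiv, A1_L_apply]
    simp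
  · funext z
    unfold dy
    rw [(key z).fderiv, A1_L_apply]
    simp

end NS
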