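import Mathlib
import Pool.Agent.helper29.NS.Spec2

/-! Project ns, module A2: subsequences of convergent sequences. -/

set_option autoImplicit false

namespace NS

open MeasureTheory Filter Topology Set

lemma A2_sub {s : ℕ → (ℝ × ℝ × ℝ → ℝ)} {f : ℝ × ℝ × ℝ → ℝ} {φ : ℕ → ℕ} (hφ : StrictMono φ)
    (h : TendstoLocallyUniformly s f atTop) :
    TendstoLocallyUniformly (fun n => s (φ n)) f atTop := by
  intro u hu x
  obtain ⟨t, ht, e⟩ := h u hu x
  exact ⟨t, ht, hφ.tendsto_atTop.eventually e⟩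

lemma A2_cvg {φ : ℕ → ℕ} (hφ : StrictMono φ) : ∀ (k : ℕ) (s : ℕ → (ℝ × ℝ × ℝ → ℝ))
    (f : ℝ × ℝ × ℝ → ℝ), Cvg k s f → Cvg k (fun n => s (φ n)) f := by
  intro k
  induction k with
  | zero => intro s f h; exact A2_sub hφ h
  | succ k ih =>
    intro s f h
    exact ⟨A2_sub hφ h.1, ih _ _ h.2.1, ih _ _ h.2.2.1, ih _ _ h.2.2.2⟩

lemma A2_fst (k : ℕ) (s : ℕ → (ℝ × ℝ × ℝ → ℝ)) (f : ℝ × ℝ × ℝ → ℝ) (h : Cvg k s f) :
    TendstoLocallyUniformly s f atTop := by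
  cases k with
  | zero => exact h
  | succ k => exact h.1

theorem A2 : A2_stmt := fun k s f _ hφ h => ⟨A2_cvg hφ k s f h, A2_fst k s f h⟩

end NS
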