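import Mathlib
import Pool.Agent.helper31.NS.A0
import Pool.Agent.helper31.NS.A1
import Pool.Agent.helper31.NS.A2

/-! Project ns, module AA: compactness of the regularity classes. -/

set_option autoImplicit false

namespace NS

open MeasureTheory Filter Topology Set

lemma AA_pt {s : ℕ → (ℝ × ℝ × ℝ → ℝ)} {f : ℝ × ℝ × ℝ → ℝ}
    (h : TendstoLocallyUniformly s f atTop) (z : ℝ × ℝ × ℝ) :
    Tendsto (fun n => s n z) atTop (𝓝 (f z)) :=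
  (h.tendstoLocallyUniformlyOn (s := univ)).tendsto_at (mem_univ z)

theorem AA (hCM : CM_stmt) : AA_stmt := by
  intro k
  induction k with
  | zero =>
    intro B s hs
    have hB : 0 ≤ B := (abs_nonneg _).trans ((hs 0).1 0)
    obtain ⟨f, φ, hφ, hf1, _, hf3⟩ := A0 B s (fun n => ⟨(hs n).1, fun z w =>
      ((hs n).2 z w).trans (by nlinarith [mul_nonneg hB (dist_nonneg (x := z) (y := w))])⟩)
    refine ⟨f, φ, hφ, ⟨hf1, ?_⟩, hf3⟩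
    intro z w
    exact le_of_tendsto ((AA_pt hf3 z).sub (AA_pt hf3 w)).abs
      (Eventually.of_forall fun n => (hs (φ n)).2 z w)
  | succ k ih =>
    intro B s hs
    obtain ⟨f0, φ0, hφ0, c0, v0⟩ := ih B (fun n => dt (s n)) (fun n => (hs n).2.2.1)
    obtain ⟨f1, φ1, hφ1, c1, v1⟩ := ih B (fun n => dx (s (φ0 n))) (fun n => (hs _).2.2.2.1)
    obtain ⟨f2, φ2, hφ2, c2, v2⟩ := ih B (fun n => dy (s (φ0 (φ1 n)))) (fun n => (hs _).2.2.2.2)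
    obtain ⟨f, φ3, hφ3, hf1, _, hf3⟩ := A0 B (fun n => s (φ0 (φ1 (φ2 n)))) (fun n =>
      ⟨(hs _).1, (hCM (k + 1) B B _ (hs _) le_rfl).2⟩)
    have w0 : Cvg k (fun n => dt (s (φ0 (φ1 (φ2 (φ3 n)))))) f0 :=
      A2_cvg (hφ1.comp (hφ2.comp hφ3)) k _ _ v0
    have w1 : Cvg k (fun n => dx (s (φ0 (φ1 (φ2 (φ3 n)))))) f1 :=
      A2_cvg (hφ2.comp hφ3) k _ _ v1
    have w2 : Cvg k (fun n => dy (s (φ0 (φ1 (φ2 (φ3 n)))))) f2 := A2_cvg hφ3 k _ _ v2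
    obtain ⟨hd, e0, e1, e2⟩ := A1 (fun n => s (φ0 (φ1 (φ2 (φ3 n))))) f f0 f1 f2
      (fun n => (hs _).2.1) hf3 (A2_fst k _ _ w0) (A2_fst k _ _ w1) (A2_fst k _ _ w2)
    refine ⟨f, fun n => φ0 (φ1 (φ2 (φ3 n))), hφ0.comp (hφ1.comp (hφ2.comp hφ3)),
      ⟨hf1, hd, ?_, ?_, ?_⟩, ⟨hf3, ?_, ?_, ?_⟩⟩
    · rw [e0]; exact c0
    · rw [e1]; exact c1
    · rw [e2]; exact c2
    · rw [e0]; exact w0
    · rw [e1]; exact w1
    · rw [e2]; exact w2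

end NS
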