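import Mathlib
import Pool.Agent.helper29.NS.Spec2

/-! Project ns, modules BF and BO: separation of points; openness in the Baire argument. -/

set_option autoImplicit false

namespace NS

open MeasureTheory Filter Topology Set

theorem BF : BF_stmt := by
  intro Y _ y z hyz
  refine ⟨?_, ?_⟩
  · have h1 : Continuous fun F : BoundedContinuousFunction Y ℝ => F y :=
      continuous_eval_const _
    have h2 : Continuous fun F : BoundedContinuousFunction Y ℝ => F z :=
      continuous_eval_const _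
    exact isOpen_ne_fun h1 h2
  · rw [Metric.dense_iff]
    intro F e he
    by_cases h : F y = F z
    · have hcont : Continuous (fun x : Y => min 1 (dist x z)) := by fun_prop
      let m : BoundedContinuousFunction Y ℝ := BoundedContinuousFunction.ofNormedAddCommGroup
        (fun x : Y => min 1 (dist x z)) hcont 1 (fun x => by
          rw [Real.norm_eq_abs, abs_of_nonneg (le_min zero_le_one dist_nonneg)]
          exact min_le_left _ _)
      have hm : ‖m‖ ≤ 1 := BoundedContinuousFunction.norm_ofNormedAddCommGroup_le hcont zero_le_one _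
      have hmx : ∀ x, m x = min 1 (dist x z) := fun x => rfl
      refine ⟨F + (e / 2) • m, ?_, ?_⟩
      · rw [Metric.mem_ball, dist_eq_norm, add_sub_cancel_left, norm_smul, Real.norm_eq_abs,
          abs_of_pos (by positivity)]
        nlinarith [norm_nonneg m]
      · show (F + (e / 2) • m) y ≠ (F + (e / 2) • m) z
        simp only [BoundedContinuousFunction.coe_add, BoundedContinuousFunction.coe_smul,
          Pi.add_apply, smul_eq_mul, hmx, dist_self]
        have h1 : 0 < min 1 (dist y z) := lt_min one_pos (dist_pos.2 hyz)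
        have h2 : min (1 : ℝ) 0 = 0 := min_eq_right zero_le_one
        rw [h2, h]
        intro hc
        have : e / 2 * min 1 (dist y z) = 0 := by linarith
        have : 0 < e / 2 * min 1 (dist y z) := by positivity
        linarith
    · exact ⟨F, Metric.mem_ball_self he, h⟩

lemma BO_ev {Y : Type*} [MetricSpace Y] {F : ℕ → BoundedContinuousFunction Y ℝ}
    {F0 : BoundedContinuousFunction Y ℝ} (hF : Tendsto F atTop (𝓝 F0)) {x : ℕ → Y} {x0 : Y}
    (hx : Tendsto x atTop (𝓝 x0)) : Tendsto (fun n => F n (x n)) atTop (𝓝 (F0 x0)) := by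
  have h1 : Continuous fun p : BoundedContinuousFunction Y ℝ × Y => p.1 p.2 := continuous_eval
  exact (h1.tendsto (F0, x0)).comp (hF.prodMk_nhds hx)

theorem BO : BO_stmt := by
  intro Y _ C D hC hD α β y z r η
  have hset : {F : BoundedContinuousFunction Y ℝ | ∀ π ∈ WP C D α β y z r η,
      ∃ t, F (π.1 t) ≠ F (π.2 t)} = {F : BoundedContinuousFunction Y ℝ |
      ∃ π ∈ WP C D α β y z r η, ∀ t, F (π.1 t) = F (π.2 t)}ᶜ := by
    ext F
    simp only [Set.mem_ofPred_eq, Set.mem_compl_iff]
    push Not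
    rfl
  rw [hset, isOpen_compl_iff]
  apply IsSeqClosed.isClosed
  intro Fs F0 hFs hF0
  choose π hπ hFπ using hFs
  obtain ⟨γ, hγ, φ, hφ, hcγ⟩ := hC.2 (fun k => (π k).1) (fun k => (hπ k).1)
  obtain ⟨δ, hδ, ψ, hψ, hcδ⟩ := hD.2 (fun k => (π (φ k)).2) (fun k => (hπ (φ k)).2.1)
  have hcγ2 : TendstoLocallyUniformly (fun k => (π (φ (ψ k))).1) γ atTop := by
    intro u hu x
    obtain ⟨t, ht, e⟩ := hcγ u hu x
    exact ⟨t, ht, hψ.tendsto_atTop.eventually e⟩
  have cγ := hC.1 γ hγ
  have cδ := hD.1 δ hδ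
  have pγ : ∀ t, Tendsto (fun k => (π (φ (ψ k))).1 t) atTop (𝓝 (γ t)) := fun t =>
    (hcγ2.tendstoLocallyUniformlyOn (s := univ)).tendsto_at (mem_univ t)
  have pδ : ∀ t, Tendsto (fun k => (π (φ (ψ k))).2 t) atTop (𝓝 (δ t)) := fun t =>
    (hcδ.tendstoLocallyUniformlyOn (s := univ)).tendsto_at (mem_univ t)
  have hF1 : Tendsto (fun k => Fs (φ (ψ k))) atTop (𝓝 F0) :=
    hF0.comp (hφ.comp hψ).tendsto_atTop
  refine ⟨(γ, δ), ⟨hγ, hδ, ?_, ?_, ?_⟩, ?_⟩
  · intro t ht
    exact le_of_tendsto ((pγ t).dist tendsto_const_nhds)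
      (Eventually.of_forall fun k => (hπ (φ (ψ k))).2.2.1 t ht)
  · intro t ht
    exact ge_of_tendsto ((pδ t).dist tendsto_const_nhds)
      (Eventually.of_forall fun k => (hπ (φ (ψ k))).2.2.2.1 t ht)
  · have h5 := fun k => (hπ (φ (ψ k))).2.2.2.2
    choose t ht t' ht' htt using h5
    obtain ⟨t0, ht0, χ, hχ, hct⟩ := isCompact_Icc.tendsto_subseq ht
    obtain ⟨t1, ht1, ω, hω, hct'⟩ := isCompact_Icc.tendsto_subseq (fun k => ht' (χ k))
    have hct2 : Tendsto (fun k => t (χ (ω k))) atTop (𝓝 t0) := hct.comp hω.tendsto_atTop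
    have hct3 : Tendsto (fun k => t' (χ (ω k))) atTop (𝓝 t1) := hct'
    have hcγ3 : TendstoLocallyUniformly (fun k => (π (φ (ψ (χ (ω k))))).1) γ atTop := by
      intro u hu x
      obtain ⟨s, hs, e⟩ := hcγ2 u hu x
      exact ⟨s, hs, (hχ.comp hω).tendsto_atTop.eventually e⟩
    have g1 := hcγ3.tendsto_comp cγ.continuousAt hct2
    have g2 := hcγ3.tendsto_comp cγ.continuousAt hct3
    refine ⟨t0, ht0, t1, ht1, ?_⟩
    exact ge_of_tendsto (((g1.dist tendsto_const_nhds).sub (g2.dist tendsto_const_nhds)).abs)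
      (Eventually.of_forall fun k => htt (χ (ω k)))
  · intro t
    have l1 := BO_ev hF1 (pγ t)
    have l2 := BO_ev hF1 (pδ t)
    exact tendsto_nhds_unique l1 (l2.congr fun k => (hFπ (φ (ψ k)) t).symm)

end NS
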