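import Mathlib
import Pool.Agent.helper31.NS.A1

/-! Project ns, modules CM and CR: monotonicity, Lipschitz bound and smoothness of the classes. -/

set_option autoImplicit false

namespace NS

open MeasureTheory Filter Topology Set

lemma CM_mono {B B' : ℝ} (hB : B ≤ B') : ∀ (k : ℕ) (f : ℝ × ℝ × ℝ → ℝ), Cls k B f → Cls k B' f := by
  intro k
  induction k with
  | zero =>
    intro f h
    exact ⟨fun z => (h.1 z).trans hB, fun z w => (h.2 z w).trans
      (mul_le_mul_of_nonneg_right hB dist_nonneg)⟩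
  | succ k ih =>
    intro f h
    exact ⟨fun z => (h.1 z).trans hB, h.2.1, ih _ h.2.2.1, ih _ h.2.2.2.1, ih _ h.2.2.2.2⟩

lemma CM_bd {B : ℝ} (k : ℕ) (f : ℝ × ℝ × ℝ → ℝ) (h : Cls k B f) (z : ℝ × ℝ × ℝ) : |f z| ≤ B := by
  cases k with
  | zero => exact h.1 z
  | succ k => exact h.1 z

lemma CM_lip {B : ℝ} (k : ℕ) (f : ℝ × ℝ × ℝ → ℝ) (h : Cls k B f) (z w : ℝ × ℝ × ℝ) :
    |f z - f w| ≤ 3 * B * dist z w := by
  have hB : 0 ≤ B := (abs_nonneg _).trans (CM_bd k f h 0)
  cases k with
  | zero =>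
    exact (h.2 z w).trans (by nlinarith [mul_nonneg hB (dist_nonneg (x := z) (y := w))])
  | succ k =>
    have hd : ∀ x ∈ (univ : Set (ℝ × ℝ × ℝ)), DifferentiableAt ℝ f x := fun x _ => h.2.1 x
    have hb : ∀ x ∈ (univ : Set (ℝ × ℝ × ℝ)), ‖fderiv ℝ f x‖ ≤ 3 * B := by
      intro x _
      have h0 : A1_L 0 0 0 = 0 := by
        apply ContinuousLinearMap.ext
        intro u
        rw [A1_L_apply]
        simp
      have h1 := A1_L_dist (dt f x) (dx f x) (dy f x) 0 0 0
      rw [← A1_fderiv, h0, dist_zero_right, Real.dist_0_eq_abs, Real.dist_0_eq_abs,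
        Real.dist_0_eq_abs] at h1
      have a0 := CM_bd k _ h.2.2.1 x
      have a1 := CM_bd k _ h.2.2.2.1 x
      have a2 := CM_bd k _ h.2.2.2.2 x
      linarith
    have := convex_univ.norm_image_sub_le_of_norm_fderiv_le hd hb (mem_univ w) (mem_univ z)
    rw [Real.norm_eq_abs] at this
    rw [dist_eq_norm]
    exact this

theorem CM : CM_stmt := fun k _ _ f h hB => ⟨CM_mono hB k f h, CM_lip k f h⟩

theorem CR : CR_stmt := by
  intro k
  induction k with
  | zero =>
    intro B f h
    rw [Nat.cast_zero, contDiff_zero]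
    have hB : 0 ≤ B := (abs_nonneg _).trans (h.1 0)
    refine (LipschitzWith.of_dist_le' (K := B) ?_).continuous
    intro z w
    rw [Real.dist_eq]
    exact h.2 z w
  | succ k ih =>
    intro B f h
    have e : fderiv ℝ f = fun z => A1_L (dt f z) (dx f z) (dy f z) := funext fun z => A1_fderiv f z
    have key : ContDiff ℝ ((k : ℕ∞) + 1) f := by
      rw [contDiff_succ_iff_fderiv]
      refine ⟨h.2.1, ?_, ?_⟩
      · intro hk
        exact absurd hk (by simp)
      · rw [e]
        unfold A1_L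
        have c0 := ih B _ h.2.2.1
        have c1 := ih B _ h.2.2.2.1
        have c2 := ih B _ h.2.2.2.2
        exact (c0.smul contDiff_const).add ((c1.smul contDiff_const).add (c2.smul contDiff_const))
    exact_mod_cast key

end NS
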