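import Mathlib
import Pool.Agent.helper31.NS.SL
import Pool.Agent.helper31.NS.CM

/-! Project ns: small calculus for the derivatives `dt`, `dx`, `dy`; modules DT, VE, DE. -/

set_option autoImplicit false

namespace NS

open MeasureTheory Filter Topology Set

lemma NC_line {f : ℝ × ℝ × ℝ → ℝ} (hf : Differentiable ℝ f) (z v : ℝ × ℝ × ℝ) :
    HasDerivAt (fun s : ℝ => f (z + s • v)) (fderiv ℝ f z v) 0 := by
  have h1 : HasDerivAt (fun s : ℝ => z + s • v) v 0 := by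
    have := ((hasDerivAt_id (0 : ℝ)).smul_const v).const_add z
    simpa using this
  have h2 : HasFDerivAt f (fderiv ℝ f z) (z + (0 : ℝ) • v) := by
    rw [zero_smul, add_zero]
    exact (hf z).hasFDerivAt
  exact h2.comp_hasDerivAt (0 : ℝ) h1

lemma NC_mem {U : Set (ℝ × ℝ × ℝ)} (hU : IsOpen U) {z : ℝ × ℝ × ℝ} (hz : z ∈ U)
    (v : ℝ × ℝ × ℝ) : ∀ᶠ s in 𝓝 (0 : ℝ), z + s • v ∈ U := by
  have hc : Continuous (fun s : ℝ => z + s • v) := by fun_prop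
  have h0 : z + (0 : ℝ) • v ∈ U := by rwa [zero_smul, add_zero]
  exact hc.continuousAt.eventually (hU.mem_nhds h0)

/-- a function which vanishes on an open set has zero derivative there (along lines) -/
lemma NC_zero {U : Set (ℝ × ℝ × ℝ)} (hU : IsOpen U) {z : ℝ × ℝ × ℝ} (hz : z ∈ U)
    (v : ℝ × ℝ × ℝ) {F : ℝ × ℝ × ℝ → ℝ} {d : ℝ} (hF : ∀ z ∈ U, F z = 0)
    (hd : HasDerivAt (fun s : ℝ => F (z + s • v)) d 0) : d = 0 := by
  have h1 : (fun s : ℝ => F (z + s • v)) =ᶠ[𝓝 0] fun _ => (0 : ℝ) := by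
    filter_upwards [NC_mem hU hz v] with s hs
    exact hF _ hs
  have h2 : HasDerivAt (fun s : ℝ => F (z + s • v)) 0 0 := (hasDerivAt_const _ _).congr_of_eventuallyEq h1
  exact hd.unique h2

lemma NC_add {U : Set (ℝ × ℝ × ℝ)} (hU : IsOpen U) (v : ℝ × ℝ × ℝ)
    {F G : ℝ × ℝ × ℝ → ℝ} (hF : Differentiable ℝ F) (hG : Differentiable ℝ G)
    (h : ∀ z ∈ U, F z + G z = 0) : ∀ z ∈ U, fderiv ℝ F z v + fderiv ℝ G z v = 0 := by
  intro z hz
  exact NC_zero hU hz v (F := fun z => F z + G z) h ((NC_line hF z v).add (NC_line hG z v))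

lemma NC_eq {U : Set (ℝ × ℝ × ℝ)} (hU : IsOpen U) (v : ℝ × ℝ × ℝ)
    {F G : ℝ × ℝ × ℝ → ℝ} (hF : Differentiable ℝ F) (hG : Differentiable ℝ G)
    (h : ∀ z ∈ U, F z = G z) : ∀ z ∈ U, fderiv ℝ F z v = fderiv ℝ G z v := by
  intro z hz
  have := NC_zero hU hz v (F := fun z => F z - G z) (fun z hz => sub_eq_zero.2 (h z hz))
    ((NC_line hF z v).sub (NC_line hG z v))
  linarith

lemma NC_sub {f g : ℝ × ℝ × ℝ → ℝ} (hf : Differentiable ℝ f) (hg : Differentiable ℝ g)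
    (z v : ℝ × ℝ × ℝ) : fderiv ℝ (fun z => f z - g z) z v = fderiv ℝ f z v - fderiv ℝ g z v := by
  rw [show (fun z => f z - g z) = f - g from rfl, fderiv_sub (hf z) (hg z), sub_apply]

lemma NC_avg {f g : ℝ × ℝ × ℝ → ℝ} (hf : Differentiable ℝ f) (hg : Differentiable ℝ g)
    (z v : ℝ × ℝ × ℝ) :
    fderiv ℝ (fun z => (f z + g z) / 2) z v = (fderiv ℝ f z v + fderiv ℝ g z v) / 2 := by
  have h1 : HasFDerivAt (fun z => (f z + g z) / 2)
      ((2 : ℝ)⁻¹ • (fderiv ℝ f z + fderiv ℝ g z)) z := by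
    have := (((hf z).hasFDerivAt).add ((hg z).hasFDerivAt)).mul_const (2 : ℝ)⁻¹
    exact this
  rw [h1.fderiv, smul_apply, add_apply, smul_eq_mul]
  ring

section
variable {f g : ℝ × ℝ × ℝ → ℝ}

lemma NC_dt_sub (hf : Differentiable ℝ f) (hg : Differentiable ℝ g) :
    dt (fun z => f z - g z) = fun z => dt f z - dt g z := funext fun z => NC_sub hf hg z _
lemma NC_dx_sub (hf : Differentiable ℝ f) (hg : Differentiable ℝ g) :
    dx (fun z => f z - g z) = fun z => dx f z - dx g z := funext fun z => NC_sub hf hg z _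
lemma NC_dy_sub (hf : Differentiable ℝ f) (hg : Differentiable ℝ g) :
    dy (fun z => f z - g z) = fun z => dy f z - dy g z := funext fun z => NC_sub hf hg z _
lemma NC_dt_avg (hf : Differentiable ℝ f) (hg : Differentiable ℝ g) :
    dt (fun z => (f z + g z) / 2) = fun z => (dt f z + dt g z) / 2 :=
  funext fun z => NC_avg hf hg z _
lemma NC_dx_avg (hf : Differentiable ℝ f) (hg : Differentiable ℝ g) :
    dx (fun z => (f z + g z) / 2) = fun z => (dx f z + dx g z) / 2 :=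
  funext fun z => NC_avg hf hg z _
lemma NC_dy_avg (hf : Differentiable ℝ f) (hg : Differentiable ℝ g) :
    dy (fun z => (f z + g z) / 2) = fun z => (dy f z + dy g z) / 2 :=
  funext fun z => NC_avg hf hg z _

end

/-- smoothness of the derivatives, from order three to order two -/
lemma NC_c2 {f : ℝ × ℝ × ℝ → ℝ} (hf : ContDiff ℝ 3 f) :
    ContDiff ℝ 2 (dt f) ∧ ContDiff ℝ 2 (dx f) ∧ ContDiff ℝ 2 (dy f) ∧
      dt (dx f) = dx (dt f) ∧ dt (dy f) = dy (dt f) ∧ dx (dy f) = dy (dx f) := by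
  obtain ⟨h1, h2, h3, h4⟩ := SM 2 f (by norm_num; exact hf)
  obtain ⟨h5, h6, h7⟩ := h4 (by norm_num)
  exact ⟨by exact_mod_cast h1, by exact_mod_cast h2, by exact_mod_cast h3, h5, h6, h7⟩

/-- smoothness of the derivatives, from order two to order one -/
lemma NC_c1 {f : ℝ × ℝ × ℝ → ℝ} (hf : ContDiff ℝ 2 f) :
    ContDiff ℝ 1 (dt f) ∧ ContDiff ℝ 1 (dx f) ∧ ContDiff ℝ 1 (dy f) ∧
      dt (dx f) = dx (dt f) ∧ dt (dy f) = dy (dt f) ∧ dx (dy f) = dy (dx f) := by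
  obtain ⟨h1, h2, h3, h4⟩ := SM 1 f (by norm_num; exact hf)
  obtain ⟨h5, h6, h7⟩ := h4 le_rfl
  exact ⟨by exact_mod_cast h1, by exact_mod_cast h2, by exact_mod_cast h3, h5, h6, h7⟩

lemma NC_d3 {f : ℝ × ℝ × ℝ → ℝ} (hf : ContDiff ℝ 3 f) : Differentiable ℝ f :=
  hf.differentiable (by norm_num)
lemma NC_d2 {f : ℝ × ℝ × ℝ → ℝ} (hf : ContDiff ℝ 2 f) : Differentiable ℝ f :=
  hf.differentiable (by norm_num)
lemma NC_d1 {f : ℝ × ℝ × ℝ → ℝ} (hf : ContDiff ℝ 1 f) : Differentiable ℝ f :=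
  hf.differentiable (by norm_num)

theorem DT : DT_stmt := by
  intro Ω ν a b m n hΩ ha hb hm hn ea eb da dm
  set U : Set (ℝ × ℝ × ℝ) := univ ×ˢ Ω with hU
  have hUo : IsOpen U := isOpen_univ.prod hΩ
  have ea' : ∀ z ∈ U, dt a z + m z * dx a z + n z * dy a z + a z * dx m z + b z * dy m z
      - ν * (dx (dx a) z + dy (dy a) z) = 0 := by
    rintro ⟨t, q⟩ hz
    have := ea t q hz.2
    linarith
  have eb' : ∀ z ∈ U, dt b z + m z * dx b z + n z * dy b z + a z * dx n z + b z * dy n z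
      - ν * (dx (dx b) z + dy (dy b) z) = 0 := by
    rintro ⟨t, q⟩ hz
    have := eb t q hz.2
    linarith
  have da' : ∀ z ∈ U, dx a z + dy b z = 0 := fun z hz => da z.1 z.2 hz.2
  have dm' : ∀ z ∈ U, dx m z + dy n z = 0 := fun z hz => dm z.1 z.2 hz.2
  obtain ⟨at2, ax2, ay2, a_tx, a_ty, a_xy⟩ := NC_c2 ha
  obtain ⟨bt2, bx2, by2, b_tx, b_ty, b_xy⟩ := NC_c2 hb
  obtain ⟨mt2, mx2, my2, m_tx, m_ty, m_xy⟩ := NC_c2 hm
  obtain ⟨nt2, nx2, ny2, n_tx, n_ty, n_xy⟩ := NC_c2 hn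
  obtain ⟨_, axx, axy, _, _, ax_xy⟩ := NC_c1 ax2
  obtain ⟨_, ayx, ayy, _, _, ay_xy⟩ := NC_c1 ay2
  obtain ⟨_, bxx, bxy, _, _, bx_xy⟩ := NC_c1 bx2
  obtain ⟨_, byx, byy, _, _, by_xy⟩ := NC_c1 by2
  -- derivatives of the divergence
  have t1 := NC_add hUo (1, 0, 0) (NC_d2 ax2) (NC_d2 by2) da'
  have x1 := NC_add hUo (0, 1, 0) (NC_d2 ax2) (NC_d2 by2) da'
  have y1 := NC_add hUo (0, 0, 1) (NC_d2 ax2) (NC_d2 by2) da'
  have x2 := NC_add hUo (0, 1, 0) (NC_d2 mx2) (NC_d2 ny2) dm'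
  have y2 := NC_add hUo (0, 0, 1) (NC_d2 mx2) (NC_d2 ny2) dm'
  have xx := NC_add hUo (0, 1, 0) (NC_d1 axx) (NC_d1 byx) x1
  have yy := NC_add hUo (0, 0, 1) (NC_d1 axy) (NC_d1 byy) y1
  intro t q hq
  have hz : ((t, q) : ℝ × ℝ × ℝ) ∈ U := ⟨mem_univ _, hq⟩
  have k1 := NC_zero hUo hz (0, 1, 0)
    (F := fun z => dt a z + m z * dx a z + n z * dy a z + a z * dx m z + b z * dy m z
      - ν * (dx (dx a) z + dy (dy a) z)) ea'
    ((((((NC_line (NC_d2 at2) (t, q) (0, 1, 0)).add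
      ((NC_line (NC_d3 hm) (t, q) (0, 1, 0)).mul (NC_line (NC_d2 ax2) (t, q) (0, 1, 0)))).add
      ((NC_line (NC_d3 hn) (t, q) (0, 1, 0)).mul (NC_line (NC_d2 ay2) (t, q) (0, 1, 0)))).add
      ((NC_line (NC_d3 ha) (t, q) (0, 1, 0)).mul (NC_line (NC_d2 mx2) (t, q) (0, 1, 0)))).add
      ((NC_line (NC_d3 hb) (t, q) (0, 1, 0)).mul (NC_line (NC_d2 my2) (t, q) (0, 1, 0)))).sub
      (((NC_line (NC_d1 axx) (t, q) (0, 1, 0)).add (NC_line (NC_d1 ayy) (t, q) (0, 1, 0))).const_mul ν))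
  have k2 := NC_zero hUo hz (0, 0, 1)
    (F := fun z => dt b z + m z * dx b z + n z * dy b z + a z * dx n z + b z * dy n z
      - ν * (dx (dx b) z + dy (dy b) z)) eb'
    ((((((NC_line (NC_d2 bt2) (t, q) (0, 0, 1)).add
      ((NC_line (NC_d3 hm) (t, q) (0, 0, 1)).mul (NC_line (NC_d2 bx2) (t, q) (0, 0, 1)))).add
      ((NC_line (NC_d3 hn) (t, q) (0, 0, 1)).mul (NC_line (NC_d2 by2) (t, q) (0, 0, 1)))).add
      ((NC_line (NC_d3 ha) (t, q) (0, 0, 1)).mul (NC_line (NC_d2 nx2) (t, q) (0, 0, 1)))).add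
      ((NC_line (NC_d3 hb) (t, q) (0, 0, 1)).mul (NC_line (NC_d2 ny2) (t, q) (0, 0, 1)))).sub
      (((NC_line (NC_d1 bxx) (t, q) (0, 0, 1)).add (NC_line (NC_d1 byy) (t, q) (0, 0, 1))).const_mul ν))
  simp only [zero_smul, add_zero] at k1 k2
  have hx : ∀ (f : ℝ × ℝ × ℝ → ℝ), fderiv ℝ f (t, q) (0, 1, 0) = dx f (t, q) := fun f => rfl
  have hy : ∀ (f : ℝ × ℝ × ℝ → ℝ), fderiv ℝ f (t, q) (0, 0, 1) = dy f (t, q) := fun f => rfl
  have ht : ∀ (f : ℝ × ℝ × ℝ → ℝ), fderiv ℝ f (t, q) (1, 0, 0) = dt f (t, q) := fun f => rfl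
  have t1' := t1 _ hz
  have x1' := x1 _ hz
  have y1' := y1 _ hz
  have x2' := x2 _ hz
  have y2' := y2 _ hz
  have xx' := xx _ hz
  have yy' := yy _ hz
  have e1 := da' _ hz
  have e2 := dm' _ hz
  simp only [hx, hy, ht] at k1 k2 t1' x1' y1' x2' y2' xx' yy'
  rw [a_tx, b_ty] at t1'
  rw [b_xy] at x1'
  rw [n_xy] at x2'
  rw [← a_xy] at y1'
  rw [← m_xy] at y2'
  have xx2 : dx (dx (dx a)) (t, q) + dy (dx (dx b)) (t, q) = 0 := by
    rw [b_xy, bx_xy] at xx'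
    exact xx'
  have yy2 : dx (dy (dy a)) (t, q) + dy (dy (dy b)) (t, q) = 0 := by
    rw [ay_xy, a_xy]
    exact yy'
  have f1 : m (t, q) * (dx (dx a) (t, q) + dy (dx b) (t, q)) = 0 := by rw [x1', mul_zero]
  have f2 : n (t, q) * (dx (dy a) (t, q) + dy (dy b) (t, q)) = 0 := by rw [y1', mul_zero]
  have f3 : a (t, q) * (dx (dx m) (t, q) + dy (dx n) (t, q)) = 0 := by rw [x2', mul_zero]
  have f4 : b (t, q) * (dx (dy m) (t, q) + dy (dy n) (t, q)) = 0 := by rw [y2', mul_zero]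
  have f5 : ν * ((dx (dx (dx a)) (t, q) + dy (dx (dx b)) (t, q)) +
    (dx (dy (dy a)) (t, q) + dy (dy (dy b)) (t, q))) = 0 := by rw [xx2, yy2]; ring
  linarith

theorem VE : VE_stmt := by
  intro Ω ν g h a b p hΩ ha hb hp hg hh hS t q hq
  set U : Set (ℝ × ℝ × ℝ) := univ ×ˢ Ω with hU
  have hUo : IsOpen U := isOpen_univ.prod hΩ
  have ea' : ∀ z ∈ U, dt a z + a z * dx a z + b z * dy a z + dx p z
      - ν * (dx (dx a) z + dy (dy a) z) - g z.2 = 0 := by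
    rintro ⟨t, q⟩ hz
    have := hS.mx t (mem_univ t) q hz.2
    linarith
  have eb' : ∀ z ∈ U, dt b z + a z * dx b z + b z * dy b z + dy p z
      - ν * (dx (dx b) z + dy (dy b) z) - h z.2 = 0 := by
    rintro ⟨t, q⟩ hz
    have := hS.my t (mem_univ t) q hz.2
    linarith
  obtain ⟨at2, ax2, ay2, a_tx, a_ty, a_xy⟩ := NC_c2 ha
  obtain ⟨bt2, bx2, by2, b_tx, b_ty, b_xy⟩ := NC_c2 hb
  obtain ⟨_, px1, py1, _, _, p_xy⟩ := NC_c1 hp
  obtain ⟨_, axx, axy, _, _, ax_xy⟩ := NC_c1 ax2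
  obtain ⟨_, ayx, ayy, _, _, ay_xy⟩ := NC_c1 ay2
  obtain ⟨_, bxx, bxy, _, _, bx_xy⟩ := NC_c1 bx2
  obtain ⟨_, byx, byy, _, _, by_xy⟩ := NC_c1 by2
  have hz : ((t, q) : ℝ × ℝ × ℝ) ∈ U := ⟨mem_univ _, hq⟩
  have hgl : HasDerivAt (fun s : ℝ => g (((t, q) : ℝ × ℝ × ℝ) + s • ((0, 0, 1) : ℝ × ℝ × ℝ)).2)
      (fderiv ℝ g q (0, 1)) 0 := by
    have h1 : HasDerivAt (fun s : ℝ => q + s • ((0, 1) : ℝ × ℝ)) (0, 1) 0 := by
      have := ((hasDerivAt_id (0 : ℝ)).smul_const ((0, 1) : ℝ × ℝ)).const_add q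
      simpa using this
    have h2 : HasFDerivAt g (fderiv ℝ g q) (q + (0 : ℝ) • ((0, 1) : ℝ × ℝ)) := by
      rw [zero_smul, add_zero]
      exact (hg.differentiable (by norm_num) q).hasFDerivAt
    exact h2.comp_hasDerivAt (0 : ℝ) h1
  have hhl : HasDerivAt (fun s : ℝ => h (((t, q) : ℝ × ℝ × ℝ) + s • ((0, 1, 0) : ℝ × ℝ × ℝ)).2)
      (fderiv ℝ h q (1, 0)) 0 := by
    have h1 : HasDerivAt (fun s : ℝ => q + s • ((1, 0) : ℝ × ℝ)) (1, 0) 0 := by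
      have := ((hasDerivAt_id (0 : ℝ)).smul_const ((1, 0) : ℝ × ℝ)).const_add q
      simpa using this
    have h2 : HasFDerivAt h (fderiv ℝ h q) (q + (0 : ℝ) • ((1, 0) : ℝ × ℝ)) := by
      rw [zero_smul, add_zero]
      exact (hh.differentiable (by norm_num) q).hasFDerivAt
    exact h2.comp_hasDerivAt (0 : ℝ) h1
  have k1 := NC_zero hUo hz (0, 0, 1)
    (F := fun z => dt a z + a z * dx a z + b z * dy a z + dx p z
      - ν * (dx (dx a) z + dy (dy a) z) - g z.2) ea'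
    ((((((NC_line (NC_d2 at2) (t, q) (0, 0, 1)).add
      ((NC_line (NC_d3 ha) (t, q) (0, 0, 1)).mul (NC_line (NC_d2 ax2) (t, q) (0, 0, 1)))).add
      ((NC_line (NC_d3 hb) (t, q) (0, 0, 1)).mul (NC_line (NC_d2 ay2) (t, q) (0, 0, 1)))).add
      (NC_line (NC_d1 px1) (t, q) (0, 0, 1))).sub
      (((NC_line (NC_d1 axx) (t, q) (0, 0, 1)).add
        (NC_line (NC_d1 ayy) (t, q) (0, 0, 1))).const_mul ν)).sub hgl)
  have k2 := NC_zero hUo hz (0, 1, 0)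
    (F := fun z => dt b z + a z * dx b z + b z * dy b z + dy p z
      - ν * (dx (dx b) z + dy (dy b) z) - h z.2) eb'
    ((((((NC_line (NC_d2 bt2) (t, q) (0, 1, 0)).add
      ((NC_line (NC_d3 ha) (t, q) (0, 1, 0)).mul (NC_line (NC_d2 bx2) (t, q) (0, 1, 0)))).add
      ((NC_line (NC_d3 hb) (t, q) (0, 1, 0)).mul (NC_line (NC_d2 by2) (t, q) (0, 1, 0)))).add
      (NC_line (NC_d1 py1) (t, q) (0, 1, 0))).sub
      (((NC_line (NC_d1 bxx) (t, q) (0, 1, 0)).add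
        (NC_line (NC_d1 byy) (t, q) (0, 1, 0))).const_mul ν)).sub hhl)
  simp only [zero_smul, add_zero] at k1 k2
  have hx : ∀ (f : ℝ × ℝ × ℝ → ℝ), fderiv ℝ f (t, q) (0, 1, 0) = dx f (t, q) := fun f => rfl
  have hy : ∀ (f : ℝ × ℝ × ℝ → ℝ), fderiv ℝ f (t, q) (0, 0, 1) = dy f (t, q) := fun f => rfl
  simp only [hx, hy] at k1 k2
  have hgy : fderiv ℝ g q (0, 1) = py g q := rfl
  have hhx : fderiv ℝ h q (1, 0) = px h q := rfl
  rw [hgy] at k1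
  rw [hhx] at k2
  have vt : dt (vort a b) = fun z => dt (dx b) z - dt (dy a) z := NC_dt_sub (NC_d2 bx2) (NC_d2 ay2)
  have vx : dx (vort a b) = fun z => dx (dx b) z - dx (dy a) z := NC_dx_sub (NC_d2 bx2) (NC_d2 ay2)
  have vy : dy (vort a b) = fun z => dy (dx b) z - dy (dy a) z := NC_dy_sub (NC_d2 bx2) (NC_d2 ay2)
  have vxx : dx (dx (vort a b)) = fun z => dx (dx (dx b)) z - dx (dx (dy a)) z := by
    rw [vx]; exact NC_dx_sub (NC_d1 bxx) (NC_d1 ayx)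
  have vyy : dy (dy (vort a b)) = fun z => dy (dy (dx b)) z - dy (dy (dy a)) z := by
    rw [vy]; exact NC_dy_sub (NC_d1 bxy) (NC_d1 ayy)
  rw [vxx, vyy, vt, vx, vy]
  simp only [curl]
  have hdv := hS.dv t (mem_univ t) q hq
  have e1 : (dx a (t, q) + dy b (t, q)) * (dx b (t, q) - dy a (t, q)) = 0 := by rw [hdv, zero_mul]
  have c1 : dt (dx b) (t, q) = dx (dt b) (t, q) := by rw [b_tx]
  have c2 : dt (dy a) (t, q) = dy (dt a) (t, q) := by rw [a_ty]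
  have c3 : dy (dx p) (t, q) = dx (dy p) (t, q) := by rw [p_xy]
  have c4 : dy (dx a) (t, q) = dx (dy a) (t, q) := by rw [a_xy]
  have c5 : dy (dx b) (t, q) = dx (dy b) (t, q) := by rw [b_xy]
  have c6 : dy (dx (dx a)) (t, q) = dx (dx (dy a)) (t, q) := by rw [← ax_xy, ← a_xy]
  have c7 : dx (dy (dy b)) (t, q) = dy (dy (dx b)) (t, q) := by rw [by_xy, b_xy]
  rw [c1, c2, c5]
  rw [c3, c4, c6] at k1
  rw [c7] at k2
  linarith

theorem DE : DE_stmt := by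
  intro Ω ν B g h a1 b1 p1 a2 b2 p2 hΩ hR1 hR2 hS1 hS2 hp a b m n ha hb hm hn
  subst ha hb hm hn
  set U : Set (ℝ × ℝ × ℝ) := univ ×ˢ Ω with hU
  have hUo : IsOpen U := isOpen_univ.prod hΩ
  have ca1 : ContDiff ℝ 3 a1 := by exact_mod_cast CR 3 B a1 hR1.ra
  have cb1 : ContDiff ℝ 3 b1 := by exact_mod_cast CR 3 B b1 hR1.rb
  have cp1 : ContDiff ℝ 2 p1 := by exact_mod_cast CR 2 B p1 hR1.rp
  have ca2 : ContDiff ℝ 3 a2 := by exact_mod_cast CR 3 B a2 hR2.ra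
  have cb2 : ContDiff ℝ 3 b2 := by exact_mod_cast CR 3 B b2 hR2.rb
  have cp2 : ContDiff ℝ 2 p2 := by exact_mod_cast CR 2 B p2 hR2.rp
  have d_a1 := NC_d3 ca1
  have d_a2 := NC_d3 ca2
  have d_b1 := NC_d3 cb1
  have d_b2 := NC_d3 cb2
  obtain ⟨_, a1x, a1y, _⟩ := NC_c2 ca1
  obtain ⟨_, a2x, a2y, _⟩ := NC_c2 ca2
  obtain ⟨_, b1x, b1y, _⟩ := NC_c2 cb1
  obtain ⟨_, b2x, b2y, _⟩ := NC_c2 cb2
  have hpx : ∀ z ∈ U, dx p1 z = dx p2 z := NC_eq hUo (0, 1, 0) (NC_d2 cp1) (NC_d2 cp2)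
    (fun z hz => hp z.1 z.2 hz.2)
  have hpy : ∀ z ∈ U, dy p1 z = dy p2 z := NC_eq hUo (0, 0, 1) (NC_d2 cp1) (NC_d2 cp2)
    (fun z hz => hp z.1 z.2 hz.2)
  have axx : dx (dx (fun z => a1 z - a2 z)) = fun z => dx (dx a1) z - dx (dx a2) z := by
    rw [NC_dx_sub d_a1 d_a2]; exact NC_dx_sub (NC_d2 a1x) (NC_d2 a2x)
  have ayy : dy (dy (fun z => a1 z - a2 z)) = fun z => dy (dy a1) z - dy (dy a2) z := by
    rw [NC_dy_sub d_a1 d_a2]; exact NC_dy_sub (NC_d2 a1y) (NC_d2 a2y)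
  have bxx : dx (dx (fun z => b1 z - b2 z)) = fun z => dx (dx b1) z - dx (dx b2) z := by
    rw [NC_dx_sub d_b1 d_b2]; exact NC_dx_sub (NC_d2 b1x) (NC_d2 b2x)
  have byy : dy (dy (fun z => b1 z - b2 z)) = fun z => dy (dy b1) z - dy (dy b2) z := by
    rw [NC_dy_sub d_b1 d_b2]; exact NC_dy_sub (NC_d2 b1y) (NC_d2 b2y)
  rw [axx, ayy, bxx, byy, NC_dt_sub d_a1 d_a2, NC_dx_sub d_a1 d_a2, NC_dy_sub d_a1 d_a2,
    NC_dt_sub d_b1 d_b2, NC_dx_sub d_b1 d_b2, NC_dy_sub d_b1 d_b2, NC_dx_avg d_a1 d_a2,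
    NC_dy_avg d_a1 d_a2, NC_dx_avg d_b1 d_b2, NC_dy_avg d_b1 d_b2]
  refine ⟨?_, ?_, ?_, ?_, ?_, ?_⟩
  · intro t q hq
    have e1 := hS1.mx t (mem_univ t) q hq
    have e2 := hS2.mx t (mem_univ t) q hq
    have e3 := hpx (t, q) ⟨mem_univ _, hq⟩
    linarith
  · intro t q hq
    have e1 := hS1.my t (mem_univ t) q hq
    have e2 := hS2.my t (mem_univ t) q hq
    have e3 := hpy (t, q) ⟨mem_univ _, hq⟩
    linarith
  · intro t q hq
    have e1 := hS1.dv t (mem_univ t) q hq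
    have e2 := hS2.dv t (mem_univ t) q hq
    linarith
  · intro t q hq
    have e1 := hS1.dv t (mem_univ t) q hq
    have e2 := hS2.dv t (mem_univ t) q hq
    linarith
  · intro t q hq
    obtain ⟨e1, e2⟩ := hS1.bc t (mem_univ t) q hq
    obtain ⟨e3, e4⟩ := hS2.bc t (mem_univ t) q hq
    simp only [e1, e2, e3, e4]
    norm_num
  · refine ⟨B, fun z => ?_⟩
    have key : ∀ u v : ℝ, |u| ≤ B → |v| ≤ B → |(u + v) / 2| ≤ B := by
      intro u v hu hv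
      rw [abs_le] at hu hv ⊢
      constructor <;> linarith [hu.1, hu.2, hv.1, hv.2]
    have q1 := hR1.ra
    have q2 := hR2.ra
    have q3 := hR1.rb
    have q4 := hR2.rb
    exact ⟨key _ _ (q1.1 z) (q2.1 z), key _ _ (q3.1 z) (q4.1 z),
      key _ _ (q1.2.2.2.1.1 z) (q2.2.2.2.1.1 z), key _ _ (q1.2.2.2.2.1 z) (q2.2.2.2.2.1 z),
      key _ _ (q3.2.2.2.1.1 z) (q4.2.2.2.1.1 z), key _ _ (q3.2.2.2.2.1 z) (q4.2.2.2.2.1 z)⟩

end NS
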