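import Mathlib
import Pool.Agent.helper29.NS.Spec2

/-! Project ns, module P2: convergence of the pressure curves. -/

set_option autoImplicit false

namespace NS

open MeasureTheory Filter Topology Set

theorem P2 : P2_stmt := by
  intro Ω hΩ hb p p' P P' hp hP hP'
  haveI : IsFiniteMeasure (volume.restrict Ω) := ⟨by
    rw [Measure.restrict_apply_univ]
    exact hb.measure_lt_top⟩
  rw [Metric.tendstoLocallyUniformly_iff]
  intro ε hε t0
  set μ0 : ℝ := (measureUnivNNReal (volume.restrict Ω) : ℝ) ^ (ENNReal.toReal 2)⁻¹ with hμ0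
  have hμ : 0 ≤ μ0 := by positivity
  have hK : IsCompact (Icc (t0 - 1) (t0 + 1) ×ˢ closure Ω) :=
    isCompact_Icc.prod hb.isCompact_closure
  have hu := tendstoLocallyUniformly_iff_forall_isCompact.1 hp _ hK
  rw [Metric.tendstoUniformlyOn_iff] at hu
  have hδ : 0 < ε / (μ0 + 1) := by positivity
  refine ⟨Icc (t0 - 1) (t0 + 1), Icc_mem_nhds (by linarith) (by linarith), ?_⟩
  filter_upwards [hu _ hδ] with n hn t ht
  rw [dist_eq_norm]
  have h1 : ‖P' t - P n t‖ ≤ μ0 * (ε / (μ0 + 1)) := by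
    refine Lp.norm_le_of_ae_bound hδ.le ?_
    filter_upwards [Lp.coeFn_sub (P' t) (P n t), hP' t, hP n t,
      ae_restrict_mem hΩ.measurableSet] with q h1 h2 h3 h4
    rw [h1, Pi.sub_apply, h2, h3, Real.norm_eq_abs, ← Real.dist_eq]
    exact (hn (t, q) ⟨ht, subset_closure h4⟩).le
  refine h1.trans_lt ?_
  rw [mul_div_assoc', div_lt_iff₀ (by positivity)]
  nlinarith

end NS
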