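import Mathlib
import Pool.Agent.helper31.NS.AA
import Pool.Agent.helper31.NS.CM
import Pool.Agent.helper31.NS.P2

/-! Project ns, module QA: the asymptotic argument. -/

set_option autoImplicit false

namespace NS

open MeasureTheory Filter Topology Set

lemma QA_extract {B : ℝ} (a b p : ℕ → (ℝ × ℝ × ℝ → ℝ)) (hR : ∀ n, Reg B (a n) (b n) (p n)) :
    ∃ (a' b' p' : ℝ × ℝ × ℝ → ℝ) (φ : ℕ → ℕ), StrictMono φ ∧ Reg B a' b' p' ∧
      Cvg 3 (fun n => a (φ n)) a' ∧ Cvg 3 (fun n => b (φ n)) b' ∧ Cvg 2 (fun n => p (φ n)) p' := by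
  obtain ⟨a', φ1, h1, ca, va⟩ := AA CM 3 B a (fun n => (hR n).ra)
  obtain ⟨b', φ2, h2, cb, vb⟩ := AA CM 3 B (fun n => b (φ1 n)) (fun n => (hR _).rb)
  obtain ⟨p', φ3, h3, cp, vp⟩ := AA CM 2 B (fun n => p (φ1 (φ2 n))) (fun n => (hR _).rp)
  exact ⟨a', b', p', fun n => φ1 (φ2 (φ3 n)), h1.comp (h2.comp h3), ⟨ca, cb, cp⟩,
    A2_cvg (h2.comp h3) 3 _ _ va, A2_cvg h3 3 _ _ vb, vp⟩

lemma QA_curve (hP1 : P1_stmt) {Ω : Set (ℝ × ℝ)} (hΩ : IsOpen Ω) (hb : Bornology.IsBounded Ω)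
    {B : ℝ} {T : ℕ → ℝ} (hT : Tendsto T atTop atTop) {p p' : ℝ × ℝ × ℝ → ℝ}
    (hcls : ∀ n, Cls 2 B (fun z => p (z.1 + T n, z.2))) {P : ℝ → Lp ℝ 2 (volume.restrict Ω)}
    (hP : ∀ t > 0, P t =ᵐ[volume.restrict Ω] fun q => p (t, q))
    (hc : TendstoLocallyUniformly (fun n z => p (z.1 + T n, z.2)) p' atTop)
    {P' : ℝ → Lp ℝ 2 (volume.restrict Ω)}
    (hP' : ∀ t, P' t =ᵐ[volume.restrict Ω] fun q => p' (t, q)) (t : ℝ) :
    Tendsto (fun n => P (t + T n)) atTop (𝓝 (P' t)) := by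
  choose Pn _ hPn using fun n => hP1 Ω hΩ hb B (fun z => p (z.1 + T n, z.2)) (hcls n)
  have h1 := P2 Ω hΩ hb (fun n z => p (z.1 + T n, z.2)) p' Pn P' hc hPn hP'
  have h2 : Tendsto (fun n => Pn n t) atTop (𝓝 (P' t)) :=
    (h1.tendstoLocallyUniformlyOn (s := univ)).tendsto_at (mem_univ t)
  refine h2.congr' ?_
  have h3 : ∀ᶠ n in atTop, 0 < t + T n :=
    (tendsto_atTop_add_const_left atTop t hT).eventually_gt_atTop 0
  filter_upwards [h3] with n hn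
  apply Lp.ext
  exact (hPn n t).trans (hP _ hn).symm

lemma QA_shift {B : ℝ} (hB : 0 ≤ B) {Ω : Set (ℝ × ℝ)} (hb : Bornology.IsBounded Ω)
    (u : ℕ → (ℝ × ℝ → ℝ)) (hu : ∀ n q, |u n q| ≤ 2 * B) (v : ℕ → (ℝ × ℝ → ℝ))
    (hv : ∀ n q, |v n q| ≤ 2 * B) (hcu : ∀ n, Continuous (u n)) (hcv : ∀ n, Continuous (v n))
    (hΩ : IsOpen Ω) (h1 : ∀ q ∈ Ω, Tendsto (fun n => u n q) atTop (𝓝 0))
    (h2 : ∀ q ∈ Ω, Tendsto (fun n => v n q) atTop (𝓝 0)) :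
    Tendsto (fun n => ∫ q in Ω, ((u n q) ^ 2 + (v n q) ^ 2)) atTop (𝓝 0) := by
  haveI : IsFiniteMeasure (volume.restrict Ω) := ⟨by
    rw [Measure.restrict_apply_univ]
    exact hb.measure_lt_top⟩
  have key : Tendsto (fun n => ∫ q in Ω, ((u n q) ^ 2 + (v n q) ^ 2)) atTop
      (𝓝 (∫ q in Ω, (0 : ℝ))) := by
    apply tendsto_integral_of_dominated_convergence (fun _ => 8 * B ^ 2)
    · intro n
      exact (((hcu n).pow 2).add ((hcv n).pow 2)).aestronglyMeasurable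
    · exact integrable_const _
    · intro n
      refine Eventually.of_forall fun q => ?_
      rw [Real.norm_eq_abs, abs_of_nonneg (by positivity)]
      have a1 := sq_le_sq' (abs_le.1 (hu n q)).1 (abs_le.1 (hu n q)).2
      have a2 := sq_le_sq' (abs_le.1 (hv n q)).1 (abs_le.1 (hv n q)).2
      nlinarith
    · filter_upwards [ae_restrict_mem hΩ.measurableSet] with q hq
      have := ((h1 q hq).pow 2).add ((h2 q hq).pow 2)
      simpa using this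
  simpa using key

theorem QA (hST : ST_stmt) (hLM : LM_stmt) (hP1 : P1_stmt) (hP3 : P3_stmt) : QA_stmt := by
  intro Ω ν g h hΩ hb hG F hF hsep B a1 b1 p1 a2 b2 p2 hR1 hR2 hS1 hS2 P1 P2 hPP1 hPP2 hlim
  by_contra hcon
  have hB : 0 ≤ B := (abs_nonneg _).trans (CM_bd 2 p1 hR1.rp 0)
  set D : ℝ → ℝ := fun t => ∫ q in Ω, ((a1 (t, q) - a2 (t, q)) ^ 2 + (b1 (t, q) - b2 (t, q)) ^ 2)
    with hD
  obtain ⟨ε, hε, hT⟩ : ∃ ε > 0, ∀ n : ℕ, ∃ t : ℝ, (n : ℝ) ≤ t ∧ ε ≤ |D t| := by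
    rw [Metric.tendsto_atTop] at hcon
    push Not at hcon
    obtain ⟨ε, hε, h⟩ := hcon
    refine ⟨ε, hε, fun n => ?_⟩
    obtain ⟨t, ht, h2⟩ := h n
    refine ⟨t, ht, ?_⟩
    rw [Real.dist_0_eq_abs] at h2
    exact h2
  choose T hTn hTD using hT
  have hTt : Tendsto T atTop atTop := tendsto_atTop_mono hTn tendsto_natCast_atTop_atTop
  have hs1 := fun n => hST Ω ν g h (Ioi 0) (Ioi (-(T n))) (T n) B a1 b1 p1 hR1 hS1
    (fun t ht => by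
      have : -(T n) < t := ht
      show 0 < t + T n
      linarith)
  have hs2 := fun n => hST Ω ν g h (Ioi 0) (Ioi (-(T n))) (T n) B a2 b2 p2 hR2 hS2
    (fun t ht => by
      have : -(T n) < t := ht
      show 0 < t + T n
      linarith)
  obtain ⟨a1', b1', p1', φ, hφ, hr1, va1, vb1, vp1⟩ := QA_extract
    (fun n z => a1 (z.1 + T n, z.2)) (fun n z => b1 (z.1 + T n, z.2))
    (fun n z => p1 (z.1 + T n, z.2)) (fun n => (hs1 n).1)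
  obtain ⟨a2', b2', p2', ψ, hψ, hr2, va2, vb2, vp2⟩ := QA_extract
    (fun n z => a2 (z.1 + T (φ n), z.2)) (fun n z => b2 (z.1 + T (φ n), z.2))
    (fun n z => p2 (z.1 + T (φ n), z.2)) (fun n => (hs2 (φ n)).1)
  have wa1 := A2_cvg hψ 3 _ _ va1
  have wb1 := A2_cvg hψ 3 _ _ vb1
  have wp1 := A2_cvg hψ 2 _ _ vp1
  have hTT : Tendsto (fun n => T (φ (ψ n))) atTop atTop :=
    hTt.comp (hφ.comp hψ).tendsto_atTop
  have hS1' : Sol Ω ν g h univ a1' b1' p1' :=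
    hLM Ω hΩ hb ν g h B (fun n => T (φ (ψ n))) _ _ _ a1' b1' p1' hTT
      (fun n => (hs1 (φ (ψ n))).1) (fun n => (hs1 (φ (ψ n))).2) wa1 wb1 wp1
  have hS2' : Sol Ω ν g h univ a2' b2' p2' :=
    hLM Ω hΩ hb ν g h B (fun n => T (φ (ψ n))) _ _ _ a2' b2' p2' hTT
      (fun n => (hs2 (φ (ψ n))).1) (fun n => (hs2 (φ (ψ n))).2) va2 vb2 vp2
  obtain ⟨Q1, hQ1c, hQ1⟩ := hP1 Ω hΩ hb B p1' hr1.rp
  obtain ⟨Q2, hQ2c, hQ2⟩ := hP1 Ω hΩ hb B p2' hr2.rp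
  have hreg : ∀ (a b p : ℝ × ℝ × ℝ → ℝ), Reg B a b p → Reg (⌈B⌉₊ : ℝ) a b p := fun a b p hr =>
    ⟨CM_mono (Nat.le_ceil B) 3 a hr.ra, CM_mono (Nat.le_ceil B) 3 b hr.rb,
      CM_mono (Nat.le_ceil B) 2 p hr.rp⟩
  have hFQ : ∀ t, F (Q1 t) = F (Q2 t) := by
    intro t
    have t1 := QA_curve hP1 hΩ hb hTT (fun n => (hs1 (φ (ψ n))).1.rp) hPP1
      (A2_fst 2 _ _ wp1) hQ1 t
    have t2 := QA_curve hP1 hΩ hb hTT (fun n => (hs2 (φ (ψ n))).1.rp) hPP2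
      (A2_fst 2 _ _ vp2) hQ2 t
    have f1 := (hF.tendsto _).comp t1
    have f2 := (hF.tendsto _).comp t2
    have f3 := hlim.comp (tendsto_atTop_add_const_left atTop t hTT)
    have f4 := f1.sub f2
    have := tendsto_nhds_unique f4 f3
    linarith
  have hQQ : Q1 = Q2 := hsep ⌈B⌉₊ ⌈B⌉₊ Q1 ⟨hQ1c, a1', b1', p1', hreg _ _ _ hr1, hS1', hQ1⟩
    Q2 ⟨hQ2c, a2', b2', p2', hreg _ _ _ hr2, hS2', hQ2⟩ hFQ
  have hcont : ∀ (f : ℝ × ℝ × ℝ → ℝ) (k : ℕ), Cls k B f → ∀ t : ℝ,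
      Continuous (fun q : ℝ × ℝ => f (t, q)) := fun f k hf t =>
    ((CR k B f hf).continuous).comp (Continuous.prodMk_right t)
  have hpp : ∀ t, ∀ q ∈ Ω, p1' (t, q) = p2' (t, q) := by
    intro t
    apply hP3 Ω hΩ _ _ (hcont p1' 2 hr1.rp t) (hcont p2' 2 hr2.rp t)
    have e1 := hQ1 t
    have e2 := hQ2 t
    rw [← hQQ] at e2
    exact e1.symm.trans e2
  have hab := hG B a1' b1' p1' a2' b2' p2' hr1 hr2 hS1' hS2' hpp
  have hpt : ∀ (f f' : ℝ × ℝ × ℝ → ℝ),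
      TendstoLocallyUniformly (fun n z => f (z.1 + T (φ (ψ n)), z.2)) f' atTop → ∀ q : ℝ × ℝ,
      Tendsto (fun n => f (T (φ (ψ n)), q)) atTop (𝓝 (f' (0, q))) := by
    intro f f' hf q
    have := AA_pt hf (0, q)
    simpa using this
  have hlimD : Tendsto (fun n => D (T (φ (ψ n)))) atTop (𝓝 0) := by
    refine QA_shift hB hb (fun n q => a1 (T (φ (ψ n)), q) - a2 (T (φ (ψ n)), q)) ?_
      (fun n q => b1 (T (φ (ψ n)), q) - b2 (T (φ (ψ n)), q)) ?_ ?_ ?_ hΩ ?_ ?_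
    · intro n q
      have u1 := CM_bd 3 _ hR1.ra (T (φ (ψ n)), q)
      have u2 := CM_bd 3 _ hR2.ra (T (φ (ψ n)), q)
      exact (abs_sub _ _).trans (by linarith)
    · intro n q
      have u1 := CM_bd 3 _ hR1.rb (T (φ (ψ n)), q)
      have u2 := CM_bd 3 _ hR2.rb (T (φ (ψ n)), q)
      exact (abs_sub _ _).trans (by linarith)
    · intro n
      exact (hcont a1 3 hR1.ra _).sub (hcont a2 3 hR2.ra _)
    · intro n
      exact (hcont b1 3 hR1.rb _).sub (hcont b2 3 hR2.rb _)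
    · intro q hq
      have := (hpt a1 a1' (A2_fst 3 _ _ wa1) q).sub (hpt a2 a2' (A2_fst 3 _ _ va2) q)
      rw [(hab 0 q hq).1, sub_self] at this
      exact this
    · intro q hq
      have := (hpt b1 b1' (A2_fst 3 _ _ wb1) q).sub (hpt b2 b2' (A2_fst 3 _ _ vb2) q)
      rw [(hab 0 q hq).2, sub_self] at this
      exact this
  have h5 := (Metric.tendsto_atTop.1 hlimD) ε hε
  obtain ⟨N, hN⟩ := h5
  have h6 := hN N le_rfl
  rw [Real.dist_0_eq_abs] at h6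
  exact absurd (hTD (φ (ψ N))) (not_le.2 h6)

end NS
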