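import Mathlib
import Pool.Agent.helper29.NS.Spec2

/-! Project ns, modules SH, RT, CL: chain rules and the closure lemma. -/

set_option autoImplicit false

namespace NS

open MeasureTheory Filter Topology Set

lemma SH_split (L : ℝ × ℝ →L[ℝ] ℝ) (a b : ℝ) : L (a, b) = a * L (1, 0) + b * L (0, 1) := by
  have e : ((a, b) : ℝ × ℝ) = a • ((1, 0) : ℝ × ℝ) + b • ((0, 1) : ℝ × ℝ) := by
    ext <;> simp
  rw [e, map_add, map_smul, map_smul, smul_eq_mul, smul_eq_mul]

theorem SH : SH_stmt := by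
  intro F f s r hF hf
  have h1 : HasFDerivAt (fun z : ℝ × ℝ => f z.1)
      ((deriv f s) • ContinuousLinearMap.fst ℝ ℝ ℝ) (s, r) := by
    have := ((hf s).hasDerivAt.hasFDerivAt).comp (s, r) (hasFDerivAt_fst (𝕜 := ℝ) (p := (s, r)))
    refine this.congr_fderiv ?_
    apply ContinuousLinearMap.ext
    intro u
    simp [mul_comm]
  have h2 : HasFDerivAt (fun z : ℝ × ℝ => (z.1, f z.1 + z.2))
      ((ContinuousLinearMap.fst ℝ ℝ ℝ).prod
        ((deriv f s) • ContinuousLinearMap.fst ℝ ℝ ℝ + ContinuousLinearMap.snd ℝ ℝ ℝ)) (s, r) :=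
    hasFDerivAt_fst.prodMk (h1.add hasFDerivAt_snd)
  have h3 : HasFDerivAt (fun z : ℝ × ℝ => F (z.1, f z.1 + z.2))
      ((fderiv ℝ F (s, f s + r)).comp ((ContinuousLinearMap.fst ℝ ℝ ℝ).prod
        ((deriv f s) • ContinuousLinearMap.fst ℝ ℝ ℝ + ContinuousLinearMap.snd ℝ ℝ ℝ))) (s, r) :=
    ((hF (s, f s + r)).hasFDerivAt).comp (s, r) h2
  constructor
  · unfold px py
    rw [h3.fderiv]
    simp only [ContinuousLinearMap.comp_apply, ContinuousLinearMap.prod_apply,
      ContinuousLinearMap.coe_fst', add_apply, smul_apply,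
      ContinuousLinearMap.coe_snd', smul_eq_mul, mul_one, add_zero]
    rw [SH_split _ 1 (deriv f s)]
    ring
  · unfold py
    rw [h3.fderiv]
    simp only [ContinuousLinearMap.comp_apply, ContinuousLinearMap.prod_apply,
      ContinuousLinearMap.coe_fst', add_apply, smul_apply,
      ContinuousLinearMap.coe_snd', smul_eq_mul, mul_zero, zero_add]

theorem RT : RT_stmt := by
  intro F θ c s r hF
  have h1 : HasFDerivAt (fun z : ℝ × ℝ => c.1 + z.1 * Real.cos θ - z.2 * Real.sin θ)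
      (Real.cos θ • ContinuousLinearMap.fst ℝ ℝ ℝ - Real.sin θ • ContinuousLinearMap.snd ℝ ℝ ℝ)
      (s, r) :=
    ((hasFDerivAt_fst.mul_const (Real.cos θ)).const_add c.1).sub
      (hasFDerivAt_snd.mul_const (Real.sin θ))
  have h2 : HasFDerivAt (fun z : ℝ × ℝ => c.2 + z.1 * Real.sin θ + z.2 * Real.cos θ)
      (Real.sin θ • ContinuousLinearMap.fst ℝ ℝ ℝ + Real.cos θ • ContinuousLinearMap.snd ℝ ℝ ℝ)
      (s, r) :=
    ((hasFDerivAt_fst.mul_const (Real.sin θ)).const_add c.2).add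
      (hasFDerivAt_snd.mul_const (Real.cos θ))
  have h3 : HasFDerivAt (fun z : ℝ × ℝ => pt θ c z.1 z.2)
      ((Real.cos θ • ContinuousLinearMap.fst ℝ ℝ ℝ -
        Real.sin θ • ContinuousLinearMap.snd ℝ ℝ ℝ).prod
        (Real.sin θ • ContinuousLinearMap.fst ℝ ℝ ℝ +
          Real.cos θ • ContinuousLinearMap.snd ℝ ℝ ℝ)) (s, r) := h1.prodMk h2
  have h4 := ((hF (pt θ c s r)).hasFDerivAt).comp (s, r) h3
  have h5 : HasFDerivAt (fun z : ℝ × ℝ => F (pt θ c z.1 z.2))
      ((fderiv ℝ F (pt θ c s r)).comp ((Real.cos θ • ContinuousLinearMap.fst ℝ ℝ ℝ -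
        Real.sin θ • ContinuousLinearMap.snd ℝ ℝ ℝ).prod
        (Real.sin θ • ContinuousLinearMap.fst ℝ ℝ ℝ +
          Real.cos θ • ContinuousLinearMap.snd ℝ ℝ ℝ))) (s, r) := h4
  constructor
  · unfold px py
    rw [h5.fderiv]
    simp only [ContinuousLinearMap.comp_apply, ContinuousLinearMap.prod_apply,
      ContinuousLinearMap.coe_fst', add_apply, sub_apply, smul_apply,
      ContinuousLinearMap.coe_snd', smul_eq_mul, mul_one, mul_zero, add_zero, sub_zero]
    rw [SH_split _ (Real.cos θ) (Real.sin θ)]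
  · unfold px py
    rw [h5.fderiv]
    simp only [ContinuousLinearMap.comp_apply, ContinuousLinearMap.prod_apply,
      ContinuousLinearMap.coe_fst', add_apply, sub_apply, smul_apply,
      ContinuousLinearMap.coe_snd', smul_eq_mul, mul_one, mul_zero, zero_add, zero_sub]
    rw [SH_split _ (-Real.sin θ) (Real.cos θ)]

theorem CL : CL_stmt := by
  intro Ω hΩ c hc V hV f hf h0
  have hcl : c ∈ closure (Ω ∩ interior V) := by
    rw [mem_closure_iff_nhds]
    intro U hU
    have h1 : U ∩ interior V ∈ 𝓝 c := inter_mem hU (interior_mem_nhds.2 hV)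
    obtain ⟨q, hq1, hq2⟩ := (mem_closure_iff_nhds.1 hc) _ h1
    exact ⟨q, hq1.1, hq2, hq1.2⟩
  have hopen : IsOpen (Ω ∩ interior V) := hΩ.inter isOpen_interior
  refine ⟨?_, ?_⟩
  · have hclosed : IsClosed {q | f q = 0} := isClosed_eq hf continuous_const
    exact closure_minimal (fun q hq => h0 q ⟨hq.1, interior_subset hq.2⟩) hclosed hcl
  · intro hf1
    have hclosed : IsClosed {q | fderiv ℝ f q = 0} :=
      isClosed_eq (hf1.continuous_fderiv (by norm_num)) continuous_const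
    refine closure_minimal (fun q hq => ?_) hclosed hcl
    have he : f =ᶠ[𝓝 q] fun _ => (0 : ℝ) := by
      filter_upwards [hopen.mem_nhds hq] with x hx
      exact h0 x ⟨hx.1, interior_subset hx.2⟩
    show fderiv ℝ f q = 0
    rw [he.fderiv_eq]
    simp

end NS
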