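import Mathlib
import Pool.Agent.helper29.NS.Spec2

/-! Project ns, modules CT and ST: translation in time. -/

set_option autoImplicit false

namespace NS

open MeasureTheory Filter Topology Set

lemma CT_fd (T : ℝ) (f : ℝ × ℝ × ℝ → ℝ) (z : ℝ × ℝ × ℝ) :
    fderiv ℝ (fun z : ℝ × ℝ × ℝ => f (z.1 + T, z.2)) z = fderiv ℝ f (z.1 + T, z.2) := by
  have e : (fun z : ℝ × ℝ × ℝ => f (z.1 + T, z.2)) = fun z => f (z + (T, 0)) := by
    funext z
    congr 1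
    ext <;> simp
  rw [e, fderiv_comp_add_right]
  congr 1
  ext <;> simp

lemma CT_dt (T : ℝ) (f : ℝ × ℝ × ℝ → ℝ) (z : ℝ × ℝ × ℝ) :
    dt (fun z : ℝ × ℝ × ℝ => f (z.1 + T, z.2)) z = dt f (z.1 + T, z.2) := by
  unfold dt
  rw [CT_fd]

lemma CT_dx (T : ℝ) (f : ℝ × ℝ × ℝ → ℝ) (z : ℝ × ℝ × ℝ) :
    dx (fun z : ℝ × ℝ × ℝ => f (z.1 + T, z.2)) z = dx f (z.1 + T, z.2) := by
  unfold dx
  rw [CT_fd]

lemma CT_dy (T : ℝ) (f : ℝ × ℝ × ℝ → ℝ) (z : ℝ × ℝ × ℝ) :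
    dy (fun z : ℝ × ℝ × ℝ => f (z.1 + T, z.2)) z = dy f (z.1 + T, z.2) := by
  unfold dy
  rw [CT_fd]

lemma CT_cls (T : ℝ) : ∀ (k : ℕ) (B : ℝ) (f : ℝ × ℝ × ℝ → ℝ), Cls k B f →
    Cls k B (fun z => f (z.1 + T, z.2)) := by
  intro k
  induction k with
  | zero =>
    intro B f h
    refine ⟨fun z => h.1 _, fun z w => (h.2 _ _).trans (le_of_eq ?_)⟩
    congr 1
    rw [Prod.dist_eq, Prod.dist_eq]
    congr 1
    exact dist_add_right _ _ _
  | succ k ih =>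
    intro B f h
    refine ⟨fun z => h.1 _, ?_, ?_, ?_, ?_⟩
    · have hg : Differentiable ℝ (fun z : ℝ × ℝ × ℝ => (z.1 + T, z.2)) :=
        (differentiable_fst.add_const T).prodMk differentiable_snd
      exact h.2.1.comp hg
    · have e : dt (fun z : ℝ × ℝ × ℝ => f (z.1 + T, z.2)) = fun z => dt f (z.1 + T, z.2) :=
        funext fun z => CT_dt T f z
      rw [e]
      exact ih B _ h.2.2.1
    · have e : dx (fun z : ℝ × ℝ × ℝ => f (z.1 + T, z.2)) = fun z => dx f (z.1 + T, z.2) :=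
        funext fun z => CT_dx T f z
      rw [e]
      exact ih B _ h.2.2.2.1
    · have e : dy (fun z : ℝ × ℝ × ℝ => f (z.1 + T, z.2)) = fun z => dy f (z.1 + T, z.2) :=
        funext fun z => CT_dy T f z
      rw [e]
      exact ih B _ h.2.2.2.2

theorem CT : CT_stmt := fun T f =>
  ⟨fun z => ⟨CT_dt T f z, CT_dx T f z, CT_dy T f z⟩, fun k B h => CT_cls T k B f h⟩

theorem ST : ST_stmt := by
  intro Ω ν g h J J' T B a b p hR hS hJ
  have et : ∀ f : ℝ × ℝ × ℝ → ℝ, dt (fun z : ℝ × ℝ × ℝ => f (z.1 + T, z.2)) =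
      fun z => dt f (z.1 + T, z.2) := fun f => funext fun z => CT_dt T f z
  have ex : ∀ f : ℝ × ℝ × ℝ → ℝ, dx (fun z : ℝ × ℝ × ℝ => f (z.1 + T, z.2)) =
      fun z => dx f (z.1 + T, z.2) := fun f => funext fun z => CT_dx T f z
  have ey : ∀ f : ℝ × ℝ × ℝ → ℝ, dy (fun z : ℝ × ℝ × ℝ => f (z.1 + T, z.2)) =
      fun z => dy f (z.1 + T, z.2) := fun f => funext fun z => CT_dy T f z
  refine ⟨⟨CT_cls T 3 B a hR.ra, CT_cls T 3 B b hR.rb, CT_cls T 2 B p hR.rp⟩, ?_⟩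
  constructor
  · intro t ht q hq
    rw [et, ex, ey, ex, ex, ey]
    exact hS.mx (t + T) (hJ t ht) q hq
  · intro t ht q hq
    rw [et, ex, ey, ey, ex, ey]
    exact hS.my (t + T) (hJ t ht) q hq
  · intro t ht q hq
    rw [ex, ey]
    exact hS.dv (t + T) (hJ t ht) q hq
  · intro t ht q hq
    exact hS.bc (t + T) (hJ t ht) q hq
  · intro t ht
    exact hS.mn (t + T) (hJ t ht)

end NS
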